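import Pool.Agent.Lib_MP_7c0f46_gt.PackProof

/-!
# A small real space which is not productively Hurewicz, consistently with `𝔟 = 𝔡`

There is a model `(M, ∈)` of ZFC in which `𝔟 = 𝔡` holds and in which there is a subspace `(X, σ)` of
the Cantor space `P(ω)` (so a real space), of cardinality less than `𝔟`, which is not productively
Hurewicz: there is a Hurewicz space `(Y, τ)`, moreover Hausdorff and zero-dimensional, whose product
`(W, ρ)` with `(X, σ)` is not Hurewicz.

The definitions are in `Pool/Agent/Lib_MP_7c0f46_gt/Defs.lean`.  The model is a two-valued quotient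
of a Boolean-valued universe, for a forcing notion which adds `ω₁` Cohen reals and then a scale of
length `ω₂` of dominating reals.
-/

namespace Pool.Agent.Results.MP_7c0f46_gt.HurewiczConsistency

open Pool.Agent.ZF

theorem result : ∃ (M : Type 1) (_ : Membership M M), ZFC M ∧ ∃ w : M, IsOmega w ∧ BEqD w ∧
    ∃ X σ : M, CantorSubspace w X σ ∧ CardLtB w X ∧
      ∃ Y τ W ρ : M, IsTopology Y τ ∧ Hausdorff Y τ ∧ ZeroDimensional Y τ ∧ Hurewicz w Y τ ∧
        IsProduct X σ Y τ W ρ ∧ ¬ Hurewicz w W ρ := by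
  obtain ⟨M, hM, h1, w, hw, hbd, X, σ, hX, hlt, Y, τ, W, ρ, h2, h3, h4, h5, -, h7, h8, -⟩ := main
  exact ⟨M, hM, h1, w, hw, hbd, X, σ, hX, hlt, Y, τ, W, ρ, h2, h3, h4, h5, h7, h8⟩

end Pool.Agent.Results.MP_7c0f46_gt.HurewiczConsistency
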