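import Mathlib

/-!
# Small Sierpiński sets are not productively Hurewicz and not productively Menger

If there is a Sierpiński set of reals of cardinality less than `𝔟`, then some set of reals of
cardinality less than `𝔟` is neither productively Hurewicz nor productively Menger.
-/

open Set Filter Topology MeasureTheory
open scoped Cardinal

namespace Pool.Agent.Results.MP_7c0f46_gt.SierpinskiCounterexample

/-- A space is *Hurewicz* if for every sequence `U n` of open covers there are finite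
`F n ⊆ U n` such that every point lies in `⋃ F n` for all but finitely many `n`. -/
def Hurewicz (X : Type) [TopologicalSpace X] : Prop :=
  ∀ U : ℕ → Set (Set X), (∀ n, (∀ u ∈ U n, IsOpen u) ∧ ⋃₀ (U n) = univ) →
    ∃ F : ℕ → Set (Set X), (∀ n, (F n).Finite ∧ F n ⊆ U n) ∧ ∀ x, ∀ᶠ n in atTop, x ∈ ⋃₀ (F n)

/-- A space is *Menger* if for every sequence `U n` of open covers there are finite
`F n ⊆ U n` such that `⋃ n, F n` covers the space. -/
def Menger (X : Type) [TopologicalSpace X] : Prop :=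
  ∀ U : ℕ → Set (Set X), (∀ n, (∀ u ∈ U n, IsOpen u) ∧ ⋃₀ (U n) = univ) →
    ∃ F : ℕ → Set (Set X), (∀ n, (F n).Finite ∧ F n ⊆ U n) ∧ ∀ x, ∃ n, x ∈ ⋃₀ (F n)

/-- `X` is *productively Hurewicz* if `X × Y` is Hurewicz for every Hurewicz space `Y`. -/
def ProductivelyHurewicz (X : Type) [TopologicalSpace X] : Prop :=
  ∀ (Y : Type) [TopologicalSpace Y], Hurewicz Y → Hurewicz (X × Y)

/-- `X` is *productively Menger* if `X × Y` is Menger for every Menger space `Y`. -/
def ProductivelyMenger (X : Type) [TopologicalSpace X] : Prop :=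
  ∀ (Y : Type) [TopologicalSpace Y], Menger Y → Menger (X × Y)

/-- The bounding number `𝔟`: the least cardinality of a family of functions `ℕ → ℕ` which is not
bounded by a single function modulo finite sets. -/
noncomputable def bNumber : Cardinal.{0} :=
  sInf {c | ∃ F : Set (ℕ → ℕ), #F = c ∧ ¬ ∃ g : ℕ → ℕ, ∀ f ∈ F, ∀ᶠ n in atTop, f n ≤ g n}

/-- A *Sierpiński set*: uncountable, but every Lebesgue null subset is countable. -/
def IsSierpinski (S : Set ℝ) : Prop :=
  ¬ S.Countable ∧ ∀ N : Set ℝ, volume N = 0 → (S ∩ N).Countable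

lemma bounded_of_lt {ι : Type} (h : #ι < bNumber) (f : ι → ℕ → ℕ) :
    ∃ g : ℕ → ℕ, ∀ i, ∀ᶠ n in atTop, f i n ≤ g n := by
  by_contra hc
  have h1 : bNumber ≤ #(range f) := by
    apply csInf_le'
    refine ⟨range f, rfl, ?_⟩
    rintro ⟨g, hg⟩
    exact hc ⟨g, fun i => hg _ ⟨i, rfl⟩⟩
  exact absurd (h1.trans Cardinal.mk_range_le) (not_le.2 h)

lemma Hurewicz.menger {X : Type} [TopologicalSpace X] (h : Hurewicz X) : Menger X := by
  intro U hU
  obtain ⟨F, hF, hx⟩ := h U hU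
  exact ⟨F, hF, fun x => (hx x).exists⟩

/-- The Michael type topology on `W`: the points outside `Z` are isolated, the points of `Z` have
their Euclidean neighbourhoods. -/
abbrev michael (W Z : Set ℝ) : TopologicalSpace W where
  IsOpen O := ∀ z ∈ O, (z : ℝ) ∈ Z →
    ∃ V : Set ℝ, IsOpen V ∧ (z : ℝ) ∈ V ∧ ∀ w : W, (w : ℝ) ∈ V → w ∈ O
  isOpen_univ := fun z _ _ => ⟨univ, isOpen_univ, mem_univ _, fun _ _ => mem_univ _⟩
  isOpen_inter := by
    intro s t hs ht z hz hZ
    obtain ⟨V, hV, hzV, h1⟩ := hs z hz.1 hZ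
    obtain ⟨V', hV', hzV', h2⟩ := ht z hz.2 hZ
    exact ⟨V ∩ V', hV.inter hV', ⟨hzV, hzV'⟩, fun w hw => ⟨h1 w hw.1, h2 w hw.2⟩⟩
  isOpen_sUnion := by
    rintro s hs z ⟨t, ht, hzt⟩ hZ
    obtain ⟨V, hV, hzV, h1⟩ := hs t ht z hzt hZ
    exact ⟨V, hV, hzV, fun w hw => ⟨t, ht, h1 w hw⟩⟩

/-- The key statement: `X` is concentrated on `Z`. -/
def Conc (X Z : Set ℝ) : Prop :=
  ∀ C : Set ℝ, IsClosed C → Disjoint C Z → (X ∩ C).Countable

lemma hurewicz_michael {X Z : Set ℝ} (hconc : Conc X Z) (hb : #(X ∪ Z : Set ℝ) < bNumber) :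
    @Hurewicz (X ∪ Z : Set ℝ) (michael (X ∪ Z) Z) := by
  classical
  let τ := michael (X ∪ Z) Z
  intro U hU
  let W : Set ℝ := X ∪ Z
  -- a countable basis of the reals
  obtain ⟨b, hbc, -, hbasis⟩ := TopologicalSpace.exists_countable_basis ℝ
  obtain ⟨B, hB⟩ := hbc.exists_eq_range (by
    by_contra hne
    rw [not_nonempty_iff_eq_empty] at hne
    have := hbasis.sUnion_eq
    rw [hne, sUnion_empty] at this
    exact (this ▸ mem_univ (0 : ℝ) : (0 : ℝ) ∈ (∅ : Set ℝ)))
  -- the set of good open sets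
  let G : ℕ → Set ℕ := fun n => {k | ∃ u ∈ U n, ∀ w : W, (w : ℝ) ∈ B k → w ∈ u}
  have hcover : ∀ n, ∀ z ∈ Z, ∃ k ∈ G n, z ∈ B k := by
    intro n z hz
    have hzW : z ∈ W := Or.inr hz
    have h1 : (⟨z, hzW⟩ : W) ∈ ⋃₀ (U n) := by rw [(hU n).2]; exact mem_univ _
    obtain ⟨u, hu, hzu⟩ := h1
    obtain ⟨V, hV, hzV, h2⟩ := (hU n).1 u hu ⟨z, hzW⟩ hzu hz
    obtain ⟨v, hv, hzv, hvV⟩ := hbasis.exists_subset_of_mem_open hzV hV
    rw [hB] at hv
    obtain ⟨k, rfl⟩ := hv
    exact ⟨k, ⟨u, hu, fun w hw => h2 w (hvV hw)⟩, hzv⟩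
  -- exceptional points
  let C : Set ℝ := ⋃ n, (X ∩ (⋃ k ∈ G n, B k)ᶜ)
  have hC : C.Countable := by
    apply countable_iUnion
    intro n
    apply hconc
    · rw [isClosed_compl_iff]
      apply isOpen_biUnion
      intro k _
      exact hbasis.isOpen (by rw [hB]; exact ⟨k, rfl⟩)
    · rw [disjoint_compl_left_iff_subset]
      intro z hz
      obtain ⟨k, hk, hzk⟩ := hcover n z hz
      exact mem_biUnion hk hzk
  have hgood : ∀ w : W, (w : ℝ) ∉ C → ∀ n, ∃ k, k ∈ G n ∧ (w : ℝ) ∈ B k := by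
    intro w hw n
    rcases w.2 with hX | hZ
    · by_contra hne
      push Not at hne
      apply hw
      refine mem_iUnion.2 ⟨n, hX, ?_⟩
      simp only [mem_compl_iff, mem_iUnion, not_exists]
      intro k hk
      exact hne k hk
    · obtain ⟨k, hk, hzk⟩ := hcover n _ hZ
      exact ⟨k, hk, hzk⟩
  let f : W → ℕ → ℕ := fun w n =>
    if h : ∃ k, k ∈ G n ∧ (w : ℝ) ∈ B k then h.choose else 0
  obtain ⟨g, hg⟩ := bounded_of_lt hb f
  -- enumeration of the exceptional points
  have hC' : {w : W | (w : ℝ) ∈ C}.Countable :=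
    hC.preimage Subtype.val_injective
  obtain ⟨e, he⟩ : ∃ e : ℕ → Set W, (∀ j, (e j).Finite) ∧ {w : W | (w : ℝ) ∈ C} ⊆ ⋃ j, e j := by
    rcases eq_empty_or_nonempty {w : W | (w : ℝ) ∈ C} with h0 | hne
    · exact ⟨fun _ => ∅, fun _ => finite_empty, by rw [h0]; exact empty_subset _⟩
    · obtain ⟨e, he⟩ := hC'.exists_eq_range hne
      refine ⟨fun j => {e j}, fun j => finite_singleton _, ?_⟩
      rw [he]
      rintro _ ⟨j, rfl⟩
      exact mem_iUnion.2 ⟨j, rfl⟩
  have hchoice : ∀ n (w : W), ∃ u ∈ U n, w ∈ u := by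
    intro n w
    have : w ∈ ⋃₀ (U n) := by rw [(hU n).2]; exact mem_univ _
    exact this
  choose c hcU hcw using hchoice
  let d : ℕ → ℕ → Set W := fun n k =>
    if h : ∃ u ∈ U n, ∀ w : W, (w : ℝ) ∈ B k → w ∈ u then h.choose else ∅
  refine ⟨fun n => ((fun k => d n k) '' {k | k ≤ g n ∧ k ∈ G n}) ∪
    (c n '' (⋃ j ∈ {j | j ≤ n}, e j)), fun n => ⟨?_, ?_⟩, ?_⟩
  · apply Finite.union
    · exact ((finite_le_nat (g n)).subset (fun k hk => hk.1)).image _
    · exact ((finite_le_nat n).biUnion (fun j _ => he.1 j)).image _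
  · rintro u (⟨k, ⟨-, hk⟩, rfl⟩ | ⟨w, -, rfl⟩)
    · have hk' : ∃ u ∈ U n, ∀ w : W, (w : ℝ) ∈ B k → w ∈ u := hk
      simp only [d, dif_pos hk']
      exact hk'.choose_spec.1
    · exact hcU n w
  · intro w
    by_cases hw : (w : ℝ) ∈ C
    · have := he.2 (show w ∈ {w : W | (w : ℝ) ∈ C} from hw)
      obtain ⟨j, hj⟩ := mem_iUnion.1 this
      filter_upwards [eventually_ge_atTop j] with n hn
      refine ⟨c n w, Or.inr ⟨w, ?_, rfl⟩, hcw n w⟩
      exact mem_biUnion (show j ∈ {j | j ≤ n} from hn) hj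
    · filter_upwards [hg w] with n hn
      have h := hgood w hw n
      have hf : f w n = h.choose := by simp only [f, dif_pos h]
      have h1 := h.choose_spec
      rw [← hf] at h1
      have hk' : ∃ u ∈ U n, ∀ w' : W, (w' : ℝ) ∈ B (f w n) → w' ∈ u := h1.1
      refine ⟨d n (f w n), Or.inl ⟨f w n, ⟨hn, h1.1⟩, rfl⟩, ?_⟩
      simp only [d, dif_pos hk']
      exact hk'.choose_spec.2 w h1.2

lemma not_menger_prod {X Z : Set ℝ} (hX : ¬ X.Countable) (hXZ : Disjoint X Z) :
    ¬ @Menger (X × (X ∪ Z : Set ℝ))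
      (@instTopologicalSpaceProd X (X ∪ Z : Set ℝ) inferInstance (michael (X ∪ Z) Z)) := by
  classical
  let τ := michael (X ∪ Z) Z
  intro hM
  let W : Set ℝ := X ∪ Z
  -- Euclidean open sets are open in the Michael topology
  have hopen : ∀ V : Set ℝ, IsOpen V → IsOpen {w : W | (w : ℝ) ∈ V} := by
    intro V hV z hz _
    exact ⟨V, hV, hz, fun w hw => hw⟩
  have hiso : ∀ x ∈ X, IsOpen {w : W | (w : ℝ) = x} := by
    intro x hx z hz hZ
    exfalso
    have hz' : (z : ℝ) = x := hz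
    rw [hz'] at hZ
    exact disjoint_left.1 hXZ hx hZ
  let D : Set (X × W) := {p | (p.1 : ℝ) ≠ (p.2 : ℝ)}
  have hD : IsOpen D := by
    rw [isOpen_iff_mem_nhds]
    rintro ⟨x, w⟩ hp
    obtain ⟨V, V', hV, hV', hxV, hwV', hdis⟩ := t2_separation (show (x : ℝ) ≠ (w : ℝ) from hp)
    have h1 : {x' : X | (x' : ℝ) ∈ V} ∈ 𝓝 x :=
      (hV.preimage continuous_subtype_val).mem_nhds hxV
    have h2 : {w' : W | (w' : ℝ) ∈ V'} ∈ 𝓝 w := (hopen V' hV').mem_nhds hwV'
    refine Filter.mem_of_superset (prod_mem_nhds h1 h2) ?_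
    rintro ⟨x', w'⟩ ⟨hx', hw'⟩ heq
    have heq' : (x' : ℝ) = (w' : ℝ) := heq
    have hx'' : (x' : ℝ) ∈ V := hx'
    have hw'' : (w' : ℝ) ∈ V' := hw'
    rw [heq'] at hx''
    exact disjoint_left.1 hdis hx'' hw''
  let R : X → Set (X × W) := fun x => {p | (p.2 : ℝ) = x}
  have hR : ∀ x, IsOpen (R x) := fun x =>
    (hiso x x.2).preimage continuous_snd
  obtain ⟨F, hF, hcov⟩ := hM (fun _ => insert D (range R)) (fun _ => by
    constructor
    · rintro u (rfl | ⟨x, rfl⟩)
      · exact hD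
      · exact hR x
    · rw [eq_univ_iff_forall]
      rintro ⟨x, w⟩
      by_cases h : (x : ℝ) = (w : ℝ)
      · exact ⟨R x, Or.inr ⟨x, rfl⟩, h.symm⟩
      · exact ⟨D, Or.inl rfl, h⟩)
  have hcount : (⋃ n, F n).Countable := countable_iUnion fun n => (hF n).1.countable
  have h2 : ∀ x : X, R x ∈ ⋃ n, F n := by
    intro x
    obtain ⟨n, u, hu, hxu⟩ := hcov (x, ⟨x, Or.inl x.2⟩)
    rcases (hF n).2 hu with rfl | ⟨y, rfl⟩
    · exact absurd rfl hxu
    · have : (x : ℝ) = y := hxu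
      have hxy : x = y := Subtype.ext this
      rw [hxy]
      exact mem_iUnion.2 ⟨n, hu⟩
  have hinj : Function.Injective R := by
    intro x y hxy
    have : ((x, ⟨x, Or.inl x.2⟩) : X × W) ∈ R x := rfl
    rw [hxy] at this
    exact Subtype.ext this
  have h3 : (univ : Set X).Countable := by
    have : (R ⁻¹' (⋃ n, F n)).Countable := hcount.preimage hinj
    exact this.mono fun x _ => h2 x
  apply hX
  have := h3.image (Subtype.val : X → ℝ)
  simpa using this

/-- The combinatorial core. -/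
lemma core {X Z : Set ℝ} (hX : ¬ X.Countable) (hXZ : Disjoint X Z) (hconc : Conc X Z)
    (hb : #(X ∪ Z : Set ℝ) < bNumber) :
    ¬ ProductivelyHurewicz X ∧ ¬ ProductivelyMenger X := by
  constructor
  · intro h
    exact not_menger_prod hX hXZ
      (@Hurewicz.menger _ (_) (@h (X ∪ Z : Set ℝ) (michael (X ∪ Z) Z) (hurewicz_michael hconc hb)))
  · intro h
    exact not_menger_prod hX hXZ
      (@h (X ∪ Z : Set ℝ) (michael (X ∪ Z) Z)
        (@Hurewicz.menger _ (_) (hurewicz_michael hconc hb)))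

/-- A measurable set of positive measure which is invariant under rational translations has null
complement. -/
lemma conull_of_rat_inv {E : Set ℝ} (hE : MeasurableSet E) (hinv : ∀ (q : ℚ) (x : ℝ), x ∈ E → x + q ∈ E)
    (hpos : volume E ≠ 0) : volume Eᶜ = 0 := by
  have hinv' : ∀ (q : ℚ) (x : ℝ), x + q ∈ E ↔ x ∈ E := by
    intro q x
    refine ⟨fun h => ?_, hinv q x⟩
    have := hinv (-q) _ h
    simpa using this
  have hfact : Fact ((0 : ℝ) < 1) := ⟨one_pos⟩
  -- the circle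
  let E' : Set (AddCircle (1 : ℝ)) := {y | ((AddCircle.equivIco 1 0 y : Ico (0:ℝ) (0+1)) : ℝ) ∈ E}
  have hmk : ∀ x : ℝ, ((x : AddCircle (1 : ℝ)) ∈ E') ↔ x ∈ E := by
    intro x
    simp only [E', mem_ofPred_eq]
    have h1 : ((AddCircle.equivIco 1 0 (x : AddCircle (1 : ℝ)) : Ico (0:ℝ) (0+1)) : ℝ) = Int.fract x := by
      rw [AddCircle.coe_equivIco_mk_apply]; simp
    rw [h1]
    have h2 : Int.fract x = x + ((-⌊x⌋ : ℤ) : ℚ) := by
      have := Int.self_sub_floor x
      push_cast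
      linarith
    rw [h2]
    exact hinv' _ _
  have hE' : MeasurableSet E' := by
    have : Measurable fun y : AddCircle (1:ℝ) => ((AddCircle.equivIco 1 0 y : Ico (0:ℝ) (0+1)) : ℝ) :=
      measurable_subtype_coe.comp (AddCircle.measurableEquivIco 1 0).measurable
    exact this hE
  have hconst : EventuallyConst E' (ae volume) := by
    apply aeconst_of_dense_setOfPred_preimage_vadd_eq (M := AddCircle (1:ℝ)) hE'.nullMeasurableSet
    have hd : DenseRange (fun q : ℚ => ((q : ℝ) : AddCircle (1 : ℝ))) := by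
      apply DenseRange.comp (g := fun x : ℝ => (x : AddCircle (1 : ℝ))) (f := fun q : ℚ => (q : ℝ))
      · exact (QuotientAddGroup.mk_surjective).denseRange
      · exact Rat.denseRange_cast
      · exact AddCircle.continuous_mk' 1
    refine hd.mono ?_
    rintro _ ⟨q, rfl⟩
    ext y
    obtain ⟨x, rfl⟩ := QuotientAddGroup.mk_surjective y
    simp only [mem_preimage, vadd_eq_add]
    have : ((q : ℝ) : AddCircle (1:ℝ)) + (x : AddCircle (1 : ℝ)) = ((x + (q : ℝ) : ℝ) : AddCircle (1:ℝ)) := by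
      rw [add_comm]; rfl
    change ((q : ℝ) : AddCircle (1:ℝ)) + (x : AddCircle (1 : ℝ)) ∈ E' ↔ (x : AddCircle (1 : ℝ)) ∈ E'
    rw [this, hmk, hmk]
    exact hinv' q x
  have hpre : ∀ S : Set (AddCircle (1:ℝ)), MeasurableSet S → volume S = 0 → volume ((fun x : ℝ => (x : AddCircle (1 : ℝ))) ⁻¹' S) = 0 := by
    intro S hS h0
    have h1 : ∀ n : ℤ, volume (((fun x : ℝ => (x : AddCircle (1 : ℝ))) ⁻¹' S) ∩ Ioc (n : ℝ) (n + 1)) = 0 := by
      intro n
      have := (AddCircle.measurePreserving_mk 1 (n : ℝ)).measure_preimage hS.nullMeasurableSet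
      rw [h0, Measure.restrict_apply ((AddCircle.measurable_mk') hS)] at this
      exact this
    have h2 : ((fun x : ℝ => (x : AddCircle (1 : ℝ))) ⁻¹' S) ⊆ ⋃ n : ℤ, (((fun x : ℝ => (x : AddCircle (1 : ℝ))) ⁻¹' S) ∩ Ioc (n : ℝ) (n + 1)) := by
      intro x hx
      obtain ⟨n, hn, -⟩ := existsUnique_add_zsmul_mem_Ioc (one_pos : (0:ℝ) < 1) x 0
      refine mem_iUnion.2 ⟨-n, hx, ?_⟩
      simp at hn ⊢
      constructor <;> linarith [hn.1, hn.2]
    exact measure_mono_null h2 (measure_iUnion_null h1)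
  rw [eventuallyConst_set'] at hconst
  rcases hconst with h | h
  · exfalso
    apply hpos
    have h0 : volume E' = 0 := by
      rw [measure_congr h]; simp
    have := hpre E' hE' h0
    have h3 : ((fun x : ℝ => (x : AddCircle (1 : ℝ))) ⁻¹' E') = E := by
      ext x; exact hmk x
    rwa [h3] at this
  · have h0 : volume E'ᶜ = 0 := by
      rw [← ae_eq_univ]; exact h
    have := hpre E'ᶜ hE'.compl h0
    have h3 : ((fun x : ℝ => (x : AddCircle (1 : ℝ))) ⁻¹' E'ᶜ) = Eᶜ := by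
      ext x; exact not_congr (hmk x)
    rwa [h3] at this

/-- **Main theorem.** -/
theorem result (S : Set ℝ) (hS : IsSierpinski S) (hb : #S < bNumber) :
    ∃ X : Set ℝ, #X < bNumber ∧ ¬ ProductivelyHurewicz X ∧ ¬ ProductivelyMenger X := by
  classical
  -- representatives of the cosets modulo the rationals
  let r : Setoid ℝ := ⟨fun x y => ∃ q : ℚ, x = y + q, ⟨fun x => ⟨0, by simp⟩,
    fun {x y} ⟨q, h⟩ => ⟨-q, by rw [h]; push_cast; ring⟩,
    fun {x y z} ⟨q, h⟩ ⟨q', h'⟩ => ⟨q' + q, by rw [h, h']; push_cast; ring⟩⟩⟩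
  obtain ⟨T, hTS, hT⟩ := (Set.exists_subset_bijOn S (Quotient.mk r) :
    ∃ T ⊆ S, BijOn (Quotient.mk r) T (Quotient.mk r '' S))
  have hTun : ¬ T.Countable := by
    intro hc
    apply hS.1
    have h1 : S ⊆ ⋃ q : ℚ, (fun x => x + (q : ℝ)) '' T := by
      intro s hs
      obtain ⟨t, ht, hts⟩ := hT.surjOn ⟨s, hs, rfl⟩
      obtain ⟨q, hq⟩ := Quotient.exact hts.symm
      exact mem_iUnion.2 ⟨q, t, ht, hq.symm⟩
    exact (countable_iUnion fun q => hc.image _).mono h1
  have hTdiff : ∀ x ∈ T, ∀ y ∈ T, ∀ q : ℚ, x = y + q → x = y := by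
    intro x hx y hy q h
    exact hT.injOn hx hy (Quotient.sound ⟨q, h⟩)
  -- splitting `T` in two uncountable pieces
  have hTinf : Infinite T := by
    rw [infinite_coe_iff]
    intro hf
    exact hTun hf.countable
  obtain ⟨e⟩ : Nonempty (T ≃ T ⊕ T) := by
    rw [← Cardinal.eq, Cardinal.mk_sum, Cardinal.lift_id,
      Cardinal.add_eq_self (Cardinal.aleph0_le_mk T)]
  let X : Set ℝ := (fun t : T => ((e.symm (Sum.inl t) : T) : ℝ)) '' univ
  let T' : Set ℝ := (fun t : T => ((e.symm (Sum.inr t) : T) : ℝ)) '' univ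
  have hinjX : Function.Injective (fun t : T => ((e.symm (Sum.inl t) : T) : ℝ)) :=
    Subtype.val_injective.comp (e.symm.injective.comp Sum.inl_injective)
  have hinjT' : Function.Injective (fun t : T => ((e.symm (Sum.inr t) : T) : ℝ)) :=
    Subtype.val_injective.comp (e.symm.injective.comp Sum.inr_injective)
  have hun : ∀ f : T → ℝ, Function.Injective f → ¬ (f '' univ).Countable := by
    intro f hf hc
    have h1 : (univ : Set T).Countable := by
      have := hc.preimage hf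
      rwa [preimage_image_eq _ hf] at this
    apply hTun
    have := h1.image (Subtype.val : T → ℝ)
    simpa using this
  have hX : ¬ X.Countable := hun _ hinjX
  have hT'un : ¬ T'.Countable := hun _ hinjT'
  have hXT : X ⊆ T := by rintro _ ⟨t, -, rfl⟩; exact (e.symm (Sum.inl t)).2
  have hT'T : T' ⊆ T := by rintro _ ⟨t, -, rfl⟩; exact (e.symm (Sum.inr t)).2
  have hdis : Disjoint X T' := by
    rw [disjoint_left]
    rintro _ ⟨t, -, rfl⟩ ⟨t', -, h⟩
    have := e.symm.injective (Subtype.ext h)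
    exact absurd this (by simp)
  let Z : Set ℝ := ⋃ q : ℚ, (fun x => x + (q : ℝ)) '' T'
  have hXZ : Disjoint X Z := by
    rw [disjoint_left]
    intro x hx hxZ
    obtain ⟨q, t, ht, hxt⟩ := mem_iUnion.1 hxZ
    have hxt' : x = t + q := hxt.symm
    have := hTdiff x (hXT hx) t (hT'T ht) q hxt'
    rw [this] at hx
    exact disjoint_left.1 hdis hx ht
  have hconc : Conc X Z := by
    intro C hC hCZ
    -- `C` is a null set
    have hnull : volume C = 0 := by
      by_contra hpos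
      let E : Set ℝ := ⋃ q : ℚ, (fun x => x + (q : ℝ)) '' C
      have hCE : C ⊆ E := fun x hx => mem_iUnion.2 ⟨0, x, hx, by simp⟩
      have hE : MeasurableSet E := by
        apply MeasurableSet.iUnion
        intro q
        have : (fun x => x + (q : ℝ)) '' C = (fun x => x + (-(q : ℝ))) ⁻¹' C := by
          ext x
          constructor
          · rintro ⟨y, hy, rfl⟩
            simpa using hy
          · intro hx
            exact ⟨x + (-(q : ℝ)), hx, by ring⟩
        rw [this]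
        exact (hC.preimage (by fun_prop)).measurableSet
      have hinv : ∀ (q : ℚ) (x : ℝ), x ∈ E → x + q ∈ E := by
        intro q x hx
        obtain ⟨q', c, hc, rfl⟩ := mem_iUnion.1 hx
        refine mem_iUnion.2 ⟨q' + q, c, hc, ?_⟩
        push_cast; ring
      have hEpos : volume E ≠ 0 := fun h => hpos (measure_mono_null hCE h)
      have hEc := conull_of_rat_inv hE hinv hEpos
      have h1 : (S ∩ Eᶜ).Countable := hS.2 _ hEc
      have h2 : (T' ∩ Eᶜ).Countable :=
        h1.mono (inter_subset_inter_left _ (hT'T.trans hTS))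
      have h3 : ∃ t ∈ T', t ∈ E := by
        by_contra hne
        push Not at hne
        apply hT'un
        have : T' ⊆ T' ∩ Eᶜ := fun t ht => ⟨ht, hne t ht⟩
        exact h2.mono this
      obtain ⟨t, ht, htE⟩ := h3
      obtain ⟨q, c, hc, rfl⟩ := mem_iUnion.1 htE
      refine disjoint_left.1 hCZ hc (mem_iUnion.2 ⟨-q, c + q, ht, ?_⟩)
      push_cast; ring
    exact (hS.2 C hnull).mono (inter_subset_inter_left _ (hXT.trans hTS))
  -- cardinalities
  have hTle : #T ≤ #S := Cardinal.mk_le_mk_of_subset hTS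
  have hXle : #X ≤ #S := (Cardinal.mk_le_mk_of_subset hXT).trans hTle
  have hSinf : ℵ₀ ≤ #S := (Cardinal.aleph0_le_mk T).trans hTle
  have hZle : #Z ≤ #S := by
    have h1 : #Z ≤ #(ℚ × T') := by
      apply Cardinal.mk_le_of_surjective (f := fun p : ℚ × T' => (⟨(p.2 : ℝ) + (p.1 : ℝ),
        mem_iUnion.2 ⟨p.1, p.2, p.2.2, rfl⟩⟩ : Z))
      rintro ⟨z, hz⟩
      obtain ⟨q, t, ht, htz⟩ := mem_iUnion.1 hz
      exact ⟨(q, ⟨t, ht⟩), Subtype.ext htz⟩
    have h2 : #(ℚ × T') ≤ #S := by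
      rw [Cardinal.mk_prod, Cardinal.lift_id, Cardinal.lift_id]
      refine (mul_le_mul' (Cardinal.mk_le_aleph0 (α := ℚ))
        ((Cardinal.mk_le_mk_of_subset hT'T).trans hTle)).trans ?_
      rw [Cardinal.aleph0_mul_eq hSinf]
    exact h1.trans h2
  have hUle : #(X ∪ Z : Set ℝ) ≤ #S := by
    refine (Cardinal.mk_union_le X Z).trans ?_
    refine (add_le_add hXle hZle).trans ?_
    rw [Cardinal.add_eq_self hSinf]
  exact ⟨X, hXle.trans_lt hb, core hX hXZ hconc (hUle.trans_lt hb)⟩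

end Pool.Agent.Results.MP_7c0f46_gt.SierpinskiCounterexample
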